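import Pool.Agent.TH107.RF.CosetZD
import Pool.Agent.TH107.RF.Conv

set_option autoImplicit false

namespace Pool.Agent.Results.MP_045578_al.ArtinConstantLabel

/-- The Artin group of a finite Coxeter matrix; an entry `0` stands for the label infinity, that is,
for no relation. -/
abbrev ArtinGroup {n : ℕ} (M : CoxeterMatrix (Fin n)) : Type :=
  PresentedGroup
    {r : FreeGroup (Fin n) | ∃ i j : Fin n, M.M i j ≠ 0 ∧
      r = ((List.range (M.M i j)).map
              (fun k => if Even k then FreeGroup.of i else FreeGroup.of j)).prod *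
          (((List.range (M.M i j)).map
              (fun k => if Even k then FreeGroup.of j else FreeGroup.of i)).prod)⁻¹}

/-- Let `M` be a Coxeter matrix such that no three distinct generators `i, j, k` have `m_ij` and
`m_jk` finite and at least three and `m_ik` finite, and suppose that the generators fall into classes
(the values of `κ`) such that two generators of different classes have label two or infinity and two
generators of the same class `c` have label `m c` or infinity, where `m c` is at least three. Then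
all units of the integral group ring of the Artin group are trivial. -/
theorem result : ∀ (n : ℕ) (M : CoxeterMatrix (Fin n)),
    (∀ i j k : Fin n, i ≠ k → 3 ≤ M.M i j → 3 ≤ M.M j k → M.M i k = 0) →
    ∀ (κ : Fin n → ℕ) (m : ℕ → ℕ), (∀ c, 3 ≤ m c) →
      (∀ i j, i ≠ j → κ i = κ j → M.M i j = 0 ∨ M.M i j = m (κ i)) →
      (∀ i j, κ i ≠ κ j → M.M i j = 0 ∨ M.M i j = 2) →
      ∀ u v : MonoidAlgebra ℤ (ArtinGroup M), u * v = 1 →
        ∃ g : ArtinGroup M, u = MonoidAlgebra.single g 1 ∨ u = -MonoidAlgebra.single g 1 := by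
  intro n M hR
  have units : ∀ (G : Type) [Group G], Pool.Agent.TH107.RF.LI G →
      ∀ u v : MonoidAlgebra ℤ G, u * v = 1 →
        ∃ g : G, u = MonoidAlgebra.single g 1 ∨ u = -MonoidAlgebra.single g 1 := by
    intro G _ hG u v huv
    obtain ⟨g, c, hu⟩ := Pool.Agent.TH107.RF.units_of_LI hG ℤ u v huv
    -- the augmentation shows that the coefficient is invertible
    have h1 : MonoidAlgebra.lift ℤ ℤ G (1 : G →* ℤ) u *
        MonoidAlgebra.lift ℤ ℤ G (1 : G →* ℤ) v = 1 := by
      rw [← map_mul, huv, map_one]
    have h2 : MonoidAlgebra.lift ℤ ℤ G (1 : G →* ℤ) u = c := by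
      rw [hu, MonoidAlgebra.lift_single]; simp
    rw [h2] at h1
    refine ⟨g, ?_⟩
    rcases Int.isUnit_iff.1 (IsUnit.of_mul_eq_one _ h1) with h | h
    · left; rw [hu, h]
    · right; rw [hu, h, MonoidAlgebra.single_neg]
  have key : ∀ R : Set (FreeGroup (Fin n)), R = Pool.Agent.TH107.RF.rels M →
      ∀ (κ : Fin n → ℕ) (m : ℕ → ℕ), (∀ c, 3 ≤ m c) →
        (∀ i j, i ≠ j → κ i = κ j → M.M i j = 0 ∨ M.M i j = m (κ i)) →
        (∀ i j, κ i ≠ κ j → M.M i j = 0 ∨ M.M i j = 2) →
        ∀ u v : MonoidAlgebra ℤ (PresentedGroup R), u * v = 1 →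
          ∃ g : PresentedGroup R, u = MonoidAlgebra.single g 1 ∨
            u = -MonoidAlgebra.single g 1 := by
    rintro R rfl κ m hm hin hout u v huv
    exact units _ (Pool.Agent.TH107.RF.li_homog hR m hm hin hout) u v huv
  exact key _ (Pool.Agent.TH107.RF.rels_eq M)

end Pool.Agent.Results.MP_045578_al.ArtinConstantLabel
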