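import Pool.Agent.TH107.RF.CosetZD
import Pool.Agent.TH107.RF.Conv

set_option autoImplicit false

namespace Pool.Agent.Results.MP_045578_al.PureArtinRankTwo

/-- The Artin group of a finite Coxeter matrix; an entry `0` stands for the label infinity, that is,
for no relation. -/
abbrev ArtinGroup {n : ℕ} (M : CoxeterMatrix (Fin n)) : Type :=
  PresentedGroup
    {r : FreeGroup (Fin n) | ∃ i j : Fin n, M.M i j ≠ 0 ∧
      r = ((List.range (M.M i j)).map
              (fun k => if Even k then FreeGroup.of i else FreeGroup.of j)).prod *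
          (((List.range (M.M i j)).map
              (fun k => if Even k then FreeGroup.of j else FreeGroup.of i)).prod)⁻¹}

/-- Let `M` be a Coxeter matrix such that no three distinct generators `i, j, k` have `m_ij` and
`m_jk` finite and at least three and `m_ik` finite, and let `π` be the homomorphism from the Artin
group to the Coxeter group, whose kernel is the pure Artin group. Then
all units of the integral group ring of the pure Artin group are trivial. -/
theorem result : ∀ (n : ℕ) (M : CoxeterMatrix (Fin n)),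
    (∀ i j k : Fin n, i ≠ k → 3 ≤ M.M i j → 3 ≤ M.M j k → M.M i k = 0) →
    ∃ π : ArtinGroup M →* M.Group, (∀ i : Fin n, π (PresentedGroup.of i) = M.simple i) ∧
      ∀ u v : MonoidAlgebra ℤ π.ker, u * v = 1 →
        ∃ g : π.ker, u = MonoidAlgebra.single g 1 ∨ u = -MonoidAlgebra.single g 1 := by
  intro n M hR
  have units : ∀ (G : Type) [Group G], Pool.Agent.TH107.RF.LI G →
      ∀ u v : MonoidAlgebra ℤ G, u * v = 1 →
        ∃ g : G, u = MonoidAlgebra.single g 1 ∨ u = -MonoidAlgebra.single g 1 := by
    intro G _ hG u v huv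
    obtain ⟨g, c, hu⟩ := Pool.Agent.TH107.RF.units_of_LI hG ℤ u v huv
    -- the augmentation shows that the coefficient is invertible
    have h1 : MonoidAlgebra.lift ℤ ℤ G (1 : G →* ℤ) u *
        MonoidAlgebra.lift ℤ ℤ G (1 : G →* ℤ) v = 1 := by
      rw [← map_mul, huv, map_one]
    have h2 : MonoidAlgebra.lift ℤ ℤ G (1 : G →* ℤ) u = c := by
      rw [hu, MonoidAlgebra.lift_single]; simp
    rw [h2] at h1
    refine ⟨g, ?_⟩
    rcases Int.isUnit_iff.1 (IsUnit.of_mul_eq_one _ h1) with h | h
    · left; rw [hu, h]
    · right; rw [hu, h, MonoidAlgebra.single_neg]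
  have key : ∀ R : Set (FreeGroup (Fin n)), R = Pool.Agent.TH107.RF.rels M →
      ∃ π : PresentedGroup R →* M.Group, (∀ i : Fin n, π (PresentedGroup.of i) = M.simple i) ∧
        ∀ u v : MonoidAlgebra ℤ π.ker, u * v = 1 →
          ∃ g : π.ker, u = MonoidAlgebra.single g 1 ∨ u = -MonoidAlgebra.single g 1 := by
    rintro R rfl
    exact ⟨Pool.Agent.TH107.RF.toCox M, fun i => Pool.Agent.TH107.RF.toCox_sg M i,
      fun u v huv => units _ (Pool.Agent.TH107.RF.li_ker hR) u v huv⟩
  exact key _ (Pool.Agent.TH107.RF.rels_eq M)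

end Pool.Agent.Results.MP_045578_al.PureArtinRankTwo
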